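import Mathlib
import Pool.Agent.H17.BoseData

set_option autoImplicit false

namespace Pool.Agent.Results.MP_50e481_nt.Bose

def bose (F : Type) {K : Type} [Field F] [Field K] [Algebra F K] (θ : K) (M b : ℕ) :
    Set (ZMod M) :=
  {a | ∃ v : F, θ ^ a.val = θ ^ b + algebraMap F K v}

def AffEq {M : ℕ} (A B : Set (ZMod M)) : Prop :=
  ∃ d s : ZMod M, IsUnit d ∧ B = (fun a => d * a + s) '' A

def Rel (F : Type) {K : Type} [Field F] [Field K] [Algebra F K] (θ : K) (p q h b e : ℕ) : Prop :=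
  (minpoly F (θ ^ b)).natDegree = h ∧ (minpoly F (θ ^ e)).natDegree = h ∧
    (b ≡ e [MOD (q ^ h - 1) / (q - 1)] ∨ θ ^ b - θ ^ e ∈ Set.range (algebraMap F K) ∨
      ∃ i : ℕ, b ≡ p ^ i * e [MOD q ^ h - 1])

open Pool.Agent.H17.FF Pool.Agent.H17.BoseData in
theorem result : ∃ (K : Type) (_ : Field K) (_ : Algebra (ZMod 3) K) (θ : K) (b e : ℕ),
    Module.finrank (ZMod 3) K = 6 ∧ orderOf θ = 3 ^ 6 - 1 ∧
    (minpoly (ZMod 3) (θ ^ b)).natDegree = 6 ∧ (minpoly (ZMod 3) (θ ^ e)).natDegree = 6 ∧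
    AffEq (bose (ZMod 3) θ (3 ^ 6 - 1) b) (bose (ZMod 3) θ (3 ^ 6 - 1) e) ∧
    ¬ Relation.EqvGen (Rel (ZMod 3) θ 3 3 6) b e := by
  have : Fact (Nat.Prime 3) := ⟨by norm_num⟩
  obtain ⟨K, _, _, θ, hf, hr, ho, Z⟩ := field3
  have hfin : IsOfFinOrder θ := orderOf_pos_iff.1 (by omega)
  have d11 := deg_eq 3 6 728 hr θ (by norm_num) ho 11 (by decide +kernel)
  have d31 := deg_eq 3 6 728 hr θ (by norm_num) ho 31 (by decide +kernel)
  have cast : ∀ v : ZMod 3, algebraMap (ZMod 3) K v = (v.val : ℕ) := fun v => by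
    rw [← map_natCast (algebraMap (ZMod 3) K), ZMod.natCast_zmod_val]
  have bs : ∀ b y z : ℕ, b < 728 → y < 728 → z < 728 → zech 3 5 T3 b 1 y = true →
      zech 3 5 T3 b 2 z = true →
      bose (ZMod 3) θ 728 b = {(b : ZMod 728), (y : ZMod 728), (z : ZMod 728)} := by
    intro b y z hb hy hz h1 h2
    have k : ∀ (a : ZMod 728) (w : ℕ), θ ^ a.val = θ ^ w ↔ a = w := fun a w => by
      rw [hfin.pow_eq_pow_iff_modEq, ho, ← ZMod.natCast_eq_natCast_iff, ZMod.natCast_zmod_val]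
    have ex : ∀ P : ZMod 3 → Prop, (∃ v, P v) ↔ P 0 ∨ P 1 ∨ P 2 := fun P =>
      ⟨fun ⟨v, hv⟩ => by fin_cases v <;> tauto, by tauto⟩
    ext a
    simp only [bose, Set.mem_ofPred_eq, ex, cast, Set.mem_insert_iff, Set.mem_singleton_iff]
    rw [show (0 : ZMod 3).val = 0 from rfl, show (1 : ZMod 3).val = 1 from rfl,
      show (2 : ZMod 3).val = 2 from rfl, Z b 1 y hb.le hy.le h1, Z b 2 z hb.le hz.le h2,
      Nat.cast_zero, add_zero, k, k, k]
  have tr : ∀ (b e : ℕ) (v : ZMod 3), θ ^ b = θ ^ e + algebraMap (ZMod 3) K v →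
      e % 728 ∈ C3 → b % 728 ∈ C3 := by
    intro b e v h he
    have c : ∀ x ∈ C3, ∀ v < 3, ∃ y ∈ C3, y < 728 ∧ zech 3 5 T3 x v y = true := by
      decide +kernel
    obtain ⟨y, hy, hy', hz⟩ := c _ he v.val v.val_lt
    rw [← pow_mod_orderOf θ e, ho, cast, Z _ _ y (by omega) hy'.le hz, hfin.pow_eq_pow_iff_modEq,
      ho] at h
    rwa [h, Nat.mod_eq_of_lt hy']
  have inv : ∀ b e, Rel (ZMod 3) θ 3 3 6 b e → (b % 728 ∈ C3 ↔ e % 728 ∈ C3) := by
    rintro b e ⟨-, -, h | ⟨v, h⟩ | ⟨i, h⟩⟩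
    · have c : ∀ x < 728, (x ∈ C3 ↔ (x + 364) % 728 ∈ C3) := by decide +kernel
      have h' : b % 364 = e % 364 := h
      by_cases h2 : b % 728 = e % 728
      · rw [h2]
      · rw [c (e % 728) (by omega), show b % 728 = (e % 728 + 364) % 728 by omega]
    · exact ⟨tr e b (-v) (by rw [map_neg, h]; ring), tr b e v (by rw [h]; ring)⟩
    · have c : ∀ x < 728, (x ∈ C3 ↔ 3 * x % 728 ∈ C3) := by decide +kernel
      have h' : b % 728 = 3 ^ i * e % 728 := h
      rw [h']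
      clear h h'
      induction i with
      | zero => simp
      | succ i ih =>
        refine Iff.trans ?_ ih
        rw [c (3 ^ i * e % 728) (by omega), pow_succ', mul_assoc, Nat.mul_mod_mod]
  refine ⟨K, inferInstance, inferInstance, θ, 11, 31, ?_, ho, d11, d31, ?_, fun h => ?_⟩
  · have := minpoly.natDegree_le (A := ZMod 3) (θ ^ 11)
    omega
  · show AffEq (bose (ZMod 3) θ 728 11) (bose (ZMod 3) θ 728 31)
    rw [bs 11 661 630 (by norm_num) (by norm_num) (by norm_num) (by decide +kernel)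
      (by decide +kernel), bs 31 473 462 (by norm_num) (by norm_num) (by norm_num)
      (by decide +kernel) (by decide +kernel)]
    refine ⟨127, 532, IsUnit.of_mul_eq_one 407 (by decide +kernel), ?_⟩
    simp only [Set.image_insert_eq, Set.image_singleton]
    rw [show (127 * ((11 : ℕ) : ZMod 728) + 532) = ((473 : ℕ) : ZMod 728) by decide +kernel,
      show (127 * ((661 : ℕ) : ZMod 728) + 532) = ((31 : ℕ) : ZMod 728) by decide +kernel,
      show (127 * ((630 : ℕ) : ZMod 728) + 532) = ((462 : ℕ) : ZMod 728) by decide +kernel,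
      Set.insert_comm]
  · have all : ∀ b e, Relation.EqvGen (Rel (ZMod 3) θ 3 3 6) b e →
        (b % 728 ∈ C3 ↔ e % 728 ∈ C3) := by
      intro b e h
      induction h with
      | rel b e h => exact inv b e h
      | refl => rfl
      | symm _ _ _ ih => exact ih.symm
      | trans _ _ _ _ _ ih1 ih2 => exact ih1.trans ih2
    exact absurd (all _ _ h) (by decide +kernel)

end Pool.Agent.Results.MP_50e481_nt.Bose
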