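import Mathlib
import Pool.Agent.H17.BoseData

set_option autoImplicit false

namespace Pool.Agent.Results.MP_50e481_nt.Singer

def singer (F : Type) {K : Type} [Field F] [Field K] [Algebra F K] (θ : K) (M b : ℕ) :
    Set (ZMod M) :=
  {a | ∃ u v : F, θ ^ a.val = algebraMap F K u * θ ^ b + algebraMap F K v}

def AffEq {M : ℕ} (A B : Set (ZMod M)) : Prop :=
  ∃ d s : ZMod M, IsUnit d ∧ B = (fun a => d * a + s) '' A

def Rel (F : Type) {K : Type} [Field F] [Field K] [Algebra F K] (θ : K) (p q h b e : ℕ) : Prop :=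
  (minpoly F (θ ^ b)).natDegree = h + 1 ∧ (minpoly F (θ ^ e)).natDegree = h + 1 ∧
    (b ≡ e [MOD (q ^ (h + 1) - 1) / (q - 1)] ∨ (∃ i : ℕ, b ≡ p ^ i * e [MOD q ^ (h + 1) - 1]) ∨
      θ ^ b - θ ^ e ∈ Set.range (algebraMap F K) ∨
      ∃ r t w : F, (r, t) ≠ (0, 0) ∧ algebraMap F K r * θ ^ b + algebraMap F K t * θ ^ (e + b) +
        algebraMap F K w * θ ^ e ∈ Set.range (algebraMap F K))

open Pool.Agent.H17.FF Pool.Agent.H17.BoseData in
theorem result : ∃ (K : Type) (_ : Field K) (_ : Algebra (ZMod 2) K) (θ : K) (b e : ℕ),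
    Module.finrank (ZMod 2) K = 9 + 1 ∧ orderOf θ = 2 ^ (9 + 1) - 1 ∧
    (minpoly (ZMod 2) (θ ^ b)).natDegree = 9 + 1 ∧ (minpoly (ZMod 2) (θ ^ e)).natDegree = 9 + 1 ∧
    AffEq (singer (ZMod 2) θ ((2 ^ (9 + 1) - 1) / (2 - 1)) b)
      (singer (ZMod 2) θ ((2 ^ (9 + 1) - 1) / (2 - 1)) e) ∧
    ¬ Relation.EqvGen (Rel (ZMod 2) θ 2 2 9) b e := by
  obtain ⟨K, _, _, θ, hf, hr, ho, Z⟩ := field2
  have : CharP K 2 := charP_of_injective_algebraMap (algebraMap (ZMod 2) K).injective 2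
  have h2 : (2 : K) = 0 := CharP.cast_eq_zero K 2
  have hfin : IsOfFinOrder θ := orderOf_pos_iff.1 (by omega)
  have h0 : θ ≠ 0 := hfin.isUnit.ne_zero
  have d31 := deg_eq 2 10 1023 hr θ (by norm_num) ho 31 (by decide +kernel)
  have d85 := deg_eq 2 10 1023 hr θ (by norm_num) ho 85 (by decide +kernel)
  have cast : ∀ v : ZMod 2, algebraMap (ZMod 2) K v = (v.val : ℕ) := fun v => by
    rw [← map_natCast (algebraMap (ZMod 2) K), ZMod.natCast_zmod_val]
  have two : ∀ v : ZMod 2, v = 0 ∨ v = 1 := by decide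
  have bs : ∀ b y : ℕ, b < 1023 → y < 1023 → zech 2 9 T2 b 1 y = true →
      singer (ZMod 2) θ 1023 b = {((0 : ℕ) : ZMod 1023), (b : ZMod 1023), (y : ZMod 1023)} := by
    intro b y hb hy h1
    have k : ∀ (a : ZMod 1023) (w : ℕ), θ ^ a.val = θ ^ w ↔ a = w := fun a w => by
      rw [hfin.pow_eq_pow_iff_modEq, ho, ← ZMod.natCast_eq_natCast_iff, ZMod.natCast_zmod_val]
    have ex : ∀ P : ZMod 2 → Prop, (∃ v, P v) ↔ P 0 ∨ P 1 := fun P =>
      ⟨fun ⟨v, hv⟩ => by rcases two v with rfl | rfl <;> tauto, by tauto⟩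
    have z := Z b 1 y hb.le hy.le h1
    rw [Nat.cast_one] at z
    ext a
    simp only [singer, Set.mem_ofPred_eq, ex, Set.mem_insert_iff, Set.mem_singleton_iff, map_zero,
      map_one, zero_mul, one_mul, add_zero, zero_add, z, ← k, pow_zero, pow_ne_zero _ h0, false_or]
  have P : ∀ b, b % 1023 ∈ C2 ↔ ∃ y ∈ C2, θ ^ b = θ ^ y := by
    intro b
    have c : ∀ x ∈ C2, x < 1023 := by decide +kernel
    constructor
    · intro h
      exact ⟨_, h, by rw [← ho, pow_mod_orderOf]⟩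
    · rintro ⟨y, hy, h⟩
      rw [hfin.pow_eq_pow_iff_modEq, ho] at h
      rwa [h, Nat.mod_eq_of_lt (c y hy)]
  have tr : ∀ (x : K) (v : ZMod 2), (∃ y ∈ C2, x = θ ^ y) →
      ∃ y ∈ C2, x + algebraMap (ZMod 2) K v = θ ^ y := by
    rintro _ v ⟨x, hx, rfl⟩
    have c : ∀ x ∈ C2, ∀ v < 2, ∃ y ∈ C2, x ≤ 1023 ∧ y ≤ 1023 ∧ zech 2 9 T2 x v y = true := by
      decide +kernel
    obtain ⟨y, hy, hx', hy', hz⟩ := c _ hx v.val v.val_lt
    exact ⟨y, hy, by rw [cast, Z _ _ y hx' hy' hz]⟩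
  have iv : ∀ x x' : K, x * x' = 1 → (∃ y ∈ C2, x = θ ^ y) → ∃ y ∈ C2, x' = θ ^ y := by
    rintro _ x' h ⟨x, hx, rfl⟩
    have c : ∀ x ∈ C2, ∃ y ∈ C2, x + y = 1023 := by decide +kernel
    obtain ⟨y, hy, e⟩ := c x hx
    refine ⟨y, hy, mul_left_cancel₀ (pow_ne_zero x h0) ?_⟩
    rw [h, ← pow_add, e, ← ho, pow_orderOf_eq_one]
  have nr : ∀ (x : K) (v : ZMod 2), (minpoly (ZMod 2) x).natDegree = 9 + 1 →
      x + algebraMap (ZMod 2) K v ≠ 0 := by
    intro x v h e
    rw [eq_neg_of_add_eq_zero_left e, ← map_neg, minpoly.eq_X_sub_C,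
      Polynomial.natDegree_X_sub_C] at h
    omega
  have tr2 : ∀ (x x' : K) (v : ZMod 2), x + x' = algebraMap (ZMod 2) K v →
      ((∃ y ∈ C2, x = θ ^ y) ↔ ∃ y ∈ C2, x' = θ ^ y) := fun x x' v h =>
    ⟨fun hx => by
      rw [show x' = x + algebraMap (ZMod 2) K v by linear_combination h - x * h2]
      exact tr _ _ hx, fun hx => by
      rw [show x = x' + algebraMap (ZMod 2) K v by linear_combination h - x' * h2]
      exact tr _ _ hx⟩
  have inv : ∀ b e, Rel (ZMod 2) θ 2 2 9 b e → (b % 1023 ∈ C2 ↔ e % 1023 ∈ C2) := by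
    rintro b e ⟨db, de, h | ⟨i, h⟩ | ⟨v, h⟩ | ⟨r, t, w, hrt, v, h⟩⟩
    · have h' : b % 1023 = e % 1023 := h
      rw [h']
    · have c : ∀ x < 1023, (x ∈ C2 ↔ 2 * x % 1023 ∈ C2) := by decide +kernel
      have h' : b % 1023 = 2 ^ i * e % 1023 := h
      rw [h']
      clear h h'
      induction i with
      | zero => simp
      | succ i ih =>
        refine Iff.trans ?_ ih
        rw [c (2 ^ i * e % 1023) (by omega), pow_succ', mul_assoc, Nat.mul_mod_mod]
    · rw [P, P]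
      exact tr2 _ _ v (by linear_combination θ ^ e * h2 - h)
    · rw [P, P]
      rcases two t with rfl | rfl
      · have hr : r = 1 := (two r).resolve_left fun e => hrt (by rw [e])
        subst hr
        simp only [map_zero, map_one, zero_mul, one_mul, add_zero] at h
        rcases two w with rfl | rfl
        · exact absurd (by rw [map_neg, h]; simp) (nr _ (-v) db)
        · exact tr2 _ _ v (by rw [h]; simp)
      · have e1 : (θ ^ b + algebraMap (ZMod 2) K w) * (θ ^ e + algebraMap (ZMod 2) K r) =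
            algebraMap (ZMod 2) K (v + r * w) := by
          rw [map_add, map_mul, h, map_one]
          ring
        rcases two (v + r * w) with e2 | e2
        · rw [e2, map_zero] at e1
          exact absurd e1 (mul_ne_zero (nr _ _ db) (nr _ _ de))
        · rw [e2, map_one] at e1
          rw [tr2 (θ ^ b) (θ ^ b + algebraMap (ZMod 2) K w) w (by linear_combination θ ^ b * h2),
            tr2 (θ ^ e) (θ ^ e + algebraMap (ZMod 2) K r) r (by linear_combination θ ^ e * h2)]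
          exact ⟨iv _ _ e1, iv _ _ (by rw [mul_comm, e1])⟩
  refine ⟨K, inferInstance, inferInstance, θ, 31, 85, ?_, ho, d31, d85, ?_, fun h => ?_⟩
  · have := minpoly.natDegree_le (A := ZMod 2) (θ ^ 31)
    omega
  · show AffEq (singer (ZMod 2) θ 1023 31) (singer (ZMod 2) θ 1023 85)
    rw [bs 31 296 (by norm_num) (by norm_num) (by decide +kernel),
      bs 85 674 (by norm_num) (by norm_num) (by decide +kernel)]
    refine ⟨212, 674, IsUnit.of_mul_eq_one 719 (by decide +kernel), ?_⟩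
    simp only [Set.image_insert_eq, Set.image_singleton]
    rw [show (212 * ((0 : ℕ) : ZMod 1023) + 674) = ((674 : ℕ) : ZMod 1023) by decide +kernel,
      show (212 * ((31 : ℕ) : ZMod 1023) + 674) = ((85 : ℕ) : ZMod 1023) by decide +kernel,
      show (212 * ((296 : ℕ) : ZMod 1023) + 674) = ((0 : ℕ) : ZMod 1023) by decide +kernel]
    ext a
    simp only [Set.mem_insert_iff, Set.mem_singleton_iff]
    tauto
  · have all : ∀ b e, Relation.EqvGen (Rel (ZMod 2) θ 2 2 9) b e →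
        (b % 1023 ∈ C2 ↔ e % 1023 ∈ C2) := by
      intro b e h
      induction h with
      | rel b e h => exact inv b e h
      | refl => rfl
      | symm _ _ _ ih => exact ih.symm
      | trans _ _ _ _ _ ih1 ih2 => exact ih1.trans ih2
    exact absurd (all _ _ h) (by decide +kernel)

end Pool.Agent.Results.MP_50e481_nt.Singer
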